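import Pool.Agent.helper83.ORE.SpecDE

/-! Row ore:DYY. -/

set_option autoImplicit false

namespace Pool.Agent.ORE

open Module Pool.Agent.GS

open scoped BigOperators

private lemma DYY_shift {M : Type} [Field M] (h : M) (n : ℕ) (a : ℕ → M) :
    ∑ l ∈ Finset.range n, h ^ (n - 1 - l) * a (l + 1) + h ^ n * a 0 =
      ∑ l ∈ Finset.range n, h ^ (n - l) * a l + a n := by
  have e1 := Finset.sum_range_succ (fun l => h ^ (n - l) * a l) n
  have e2 := Finset.sum_range_succ' (fun l => h ^ (n - l) * a l) n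
  rw [Nat.sub_self, pow_zero, one_mul] at e1
  rw [Nat.sub_zero] at e2
  rw [← e1, e2]
  refine congrArg (· + h ^ n * a 0) (Finset.sum_congr rfl fun l _ => ?_)
  rw [Nat.sub_sub, Nat.add_comm 1 l]

theorem DYY : DYY_stmt := by
  intro L M _ _ _ ι n _ u h h2 hn h0 hs
  have hne : (1 + h ^ n : M) ≠ 0 := by
    intro h3
    apply hn
    have h4 : h ^ n = h ^ n + (1 + h ^ n) := by rw [h3, add_zero]
    have h5 : h ^ n + (1 + h ^ n) = 1 + 2 * h ^ n := by ring
    rw [h5, h2, zero_mul, add_zero] at h4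
    exact h4
  have hnn : ((n : ℕ) : ZMod n) = 0 := ZMod.natCast_self n
  have hY : ∀ i : ZMod n, (1 + h ^ n) * ((1 + h ^ n)⁻¹ * ∑ l ∈ Finset.range n,
      h ^ (n - 1 - l) * ι (star (u (i + (l : ZMod n))))) = ∑ l ∈ Finset.range n,
      h ^ (n - 1 - l) * ι (star (u (i + (l : ZMod n)))) := fun i => by
    rw [← mul_assoc, mul_inv_cancel₀ hne, one_mul]
  refine ⟨fun i => (1 + h ^ n)⁻¹ * ∑ l ∈ Finset.range n,
    h ^ (n - 1 - l) * ι (star (u (i + (l : ZMod n)))), fun i => ?_, ?_⟩
  · have e1 := DYY_shift h n (fun l => ι (star (u (i + (l : ZMod n)))))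
    rw [Nat.cast_zero, hnn, add_zero] at e1
    have e2 : ∑ l ∈ Finset.range n, h ^ (n - 1 - l) * ι (star (u (i + 1 + (l : ZMod n)))) =
        ∑ l ∈ Finset.range n, h ^ (n - 1 - l) * ι (star (u (i + ((l + 1 : ℕ) : ZMod n)))) := by
      refine Finset.sum_congr rfl fun l _ => ?_
      rw [Nat.cast_add, Nat.cast_one, add_assoc, add_comm (1 : ZMod n) (l : ZMod n)]
    have e3 : h * ∑ l ∈ Finset.range n, h ^ (n - 1 - l) * ι (star (u (i + (l : ZMod n)))) =
        ∑ l ∈ Finset.range n, h ^ (n - l) * ι (star (u (i + (l : ZMod n)))) := by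
      rw [Finset.mul_sum]
      refine Finset.sum_congr rfl fun l hl => ?_
      have hl' := Finset.mem_range.mp hl
      rw [← mul_assoc, ← pow_succ']
      have : n - 1 - l + 1 = n - l := by omega
      rw [this]
    apply mul_left_cancel₀ hne
    dsimp only
    rw [mul_add, hY, e2, mul_left_comm, hY, e3]
    have e4 : ∑ l ∈ Finset.range n, h ^ (n - 1 - l) * ι (star (u (i + ((l + 1 : ℕ) : ZMod n)))) =
        ∑ l ∈ Finset.range n, h ^ (n - l) * ι (star (u (i + (l : ZMod n)))) +
        ι (star (u i)) - h ^ n * ι (star (u i)) := by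
      rw [← e1]; ring
    rw [e4]
    linear_combination ι (star (u i)) * h2
  · apply mul_left_cancel₀ hne
    rw [mul_one, Finset.mul_sum]
    have e1 := DYY_shift h n (fun l => ι (∑ i, u i * star (u (i + (l : ZMod n)))))
    have hg0 : ι (∑ i, u i * star (u (i + ((0 : ℕ) : ZMod n)))) = 0 := by
      rw [Nat.cast_zero]
      simp only [add_zero]
      rw [h0, map_zero]
    have hgn : ι (∑ i, u i * star (u (i + ((n : ℕ) : ZMod n)))) = 0 := by
      rw [hnn]
      simp only [add_zero]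
      rw [h0, map_zero]
    rw [hg0, hgn, mul_zero, add_zero, add_zero] at e1
    have hpos : 0 < n := Nat.pos_of_ne_zero (NeZero.ne n)
    have e2 : ∑ l ∈ Finset.range n, h ^ (n - l) * ι (∑ i, u i * star (u (i + (l : ZMod n)))) =
        1 + h ^ n := by
      rw [Finset.range_eq_Ico, Finset.sum_eq_sum_Ico_succ_bot hpos, hg0, mul_zero, zero_add]
      exact hs.symm
    rw [e2] at e1
    refine Eq.trans ?_ e1
    have e3 : ∀ i ∈ (Finset.univ : Finset (ZMod n)), (1 + h ^ n) * (ι (u i) * ((1 + h ^ n)⁻¹ *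
        ∑ l ∈ Finset.range n, h ^ (n - 1 - l) * ι (star (u (i + 1 + (l : ZMod n)))))) =
        ∑ l ∈ Finset.range n, h ^ (n - 1 - l) * ι (u i * star (u (i + ((l + 1 : ℕ) : ZMod n)))) := by
      intro i _
      rw [mul_left_comm, hY, Finset.mul_sum]
      refine Finset.sum_congr rfl fun l _ => ?_
      rw [Nat.cast_add, Nat.cast_one, add_assoc, add_comm (1 : ZMod n) (l : ZMod n), map_mul]
      ring
    refine (Finset.sum_congr rfl e3).trans ?_
    rw [Finset.sum_comm]
    refine Finset.sum_congr rfl fun l _ => ?_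
    rw [← Finset.mul_sum, map_sum]

end Pool.Agent.ORE
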